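import Mathlib
import Pool.Agent.Work.MP_e4c1d4_an.Transfer

set_option autoImplicit false

namespace Pool.Agent.Results.MP_e4c1d4_an.HalfSpaceUniqueness

open Laplacian

/-- Uniqueness for `-Δu = u - 1` in the half-space `ℝ^N_+ = {x ∈ ℝ^N : x_N > 0}`, for every
`N = n + 1 ≥ 1` (the coordinate `x_N` is `x (Fin.last n)`, and `Δ` is the Laplacian of Mathlib on
`EuclideanSpace ℝ (Fin (n + 1))`).

Let `u` be `C²` on the closed half-space, with `-Δu = u - 1` in the open half-space and `u = 0` on the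
boundary, and suppose (H): for every `M > 0` there is `C > 0` with `0 ≤ u ≤ C` on `0 ≤ x_N ≤ M`.
Then `u(x) = 1 - cos x_N` on the closed half-space. -/
theorem result (n : ℕ) (u : EuclideanSpace ℝ (Fin (n + 1)) → ℝ)
    (hu : ContDiffOn ℝ 2 u {x | 0 ≤ x (Fin.last n)})
    (hpde : ∀ x : EuclideanSpace ℝ (Fin (n + 1)), 0 < x (Fin.last n) → -(Δ u x) = u x - 1)
    (hbd : ∀ x : EuclideanSpace ℝ (Fin (n + 1)), x (Fin.last n) = 0 → u x = 0)
    (hH : ∀ M : ℝ, 0 < M → ∃ C : ℝ, 0 < C ∧ ∀ x : EuclideanSpace ℝ (Fin (n + 1)),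
      0 ≤ x (Fin.last n) → x (Fin.last n) ≤ M → 0 ≤ u x ∧ u x ≤ C) :
    ∀ x : EuclideanSpace ℝ (Fin (n + 1)), 0 ≤ x (Fin.last n) →
      u x = 1 - Real.cos (x (Fin.last n)) :=
  fun x hx => Pool.Agent.MP_e4c1d4_an.final hu hpde hbd hH x hx

end Pool.Agent.Results.MP_e4c1d4_an.HalfSpaceUniqueness
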